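import Pool.Agent.H94.CB.H13.OT.Wrap

/-!
# LB PNDefs: limits of discs in a subset of `ℙ^N`
-/

set_option autoImplicit false

open Topology Filter Metric

namespace Pool.Agent.H36.LB

open Pool.Agent.H17 (PN HolomorphicInto ZariskiClosedIn)
open Pool.Agent.H13.OT (OrderTwo)

variable {N : ℕ}

/-- Near `z₀` the maps `F n` converge to `f`, uniformly on a disc around `z₀`: there are holomorphic homogeneous coordinates of the maps `F n`
which converge to homogeneous coordinates of `f`. -/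
def ConvPN (l : Filter ℕ) (F : ℕ → ℂ → PN N) (f : ℂ → PN N) (z₀ : ℂ) : Prop :=
  ∃ (s : ℝ) (Φ : ℕ → ℂ → Fin (N + 1) → ℂ) (Φ₀ : ℂ → Fin (N + 1) → ℂ), 0 < s ∧
    (∀ᶠ n in l, DifferentiableOn ℂ (Φ n) (ball z₀ s) ∧ ∀ z ∈ ball z₀ s, ∃ h : Φ n z ≠ 0, F n z = Projectivization.mk ℂ (Φ n z) h) ∧
    DifferentiableOn ℂ Φ₀ (ball z₀ s) ∧ (∀ z ∈ ball z₀ s, ∃ h : Φ₀ z ≠ 0, f z = Projectivization.mk ℂ (Φ₀ z) h) ∧
    TendstoLocallyUniformlyOn Φ Φ₀ l (ball z₀ s)

/-- The entire curve `f` in `ℙ^N`, with `f 0 ∈ U`, is the limit of the holomorphic maps `F n` from the discs of radius `n + 1` to `U`, near `0` and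
near every point outside a closed discrete set, and it has values in `U` at all points near which the maps `F n` converge. -/
structure IsLimitPN (U : Set (PN N)) (l : Filter ℕ) (F : ℕ → ℂ → PN N) (f : ℂ → PN N) : Prop where
  neBot : l.NeBot
  le_atTop : l ≤ atTop
  hol : HolomorphicInto f Set.univ
  zero_mem : f 0 ∈ U
  holF : ∀ n : ℕ, HolomorphicInto (F n) (ball 0 (n + 1))
  memF : ∀ n : ℕ, ∀ z ∈ ball (0 : ℂ) (n + 1), F n z ∈ U
  zero : ConvPN l F f 0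
  conv : ∀ z₀ : ℂ, ∀ᶠ z in 𝓝[≠] z₀, ConvPN l F f z
  mem_of_conv : ∀ z, ConvPN l F f z → f z ∈ U

/-- Every nonconstant limit `f` of discs in `U` with `T_f(r) = O(r²)` lies in `Ξ`, where it is in `U`. -/
def LimModPN (U Ξ : Set (PN N)) : Prop :=
  ∀ (l : Filter ℕ) (F : ℕ → ℂ → PN N) (f : ℂ → PN N), IsLimitPN U l F f → OrderTwo f → (∃ z w, f z ≠ f w) →
    ∀ z, f z ∈ U → f z ∈ Ξ

end Pool.Agent.H36.LB
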