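import Pool.Agent.H94.CB.H62.SA.Defs

/-!
# LB Final: open surfaces of log general type, the complement of a curve

`IsCurveComplement P G`: the complement of `U = locVar P G` in the closed variety `X` given by `P` is locally given by one equation.
-/

set_option autoImplicit false

open Topology Filter MvPolynomial

noncomputable section

namespace Pool.Agent.H36.LB

open Pool.Agent.H17 (PN VanishesAt ZariskiClosedIn HolomorphicInto puncturedDisc)
open Pool.Agent.H62.SA (locVar OnBd)
open Pool.Agent.H17LG.Variety (FunField IsLogGeneralType)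

variable {N : ℕ} {P : Ideal (MvPolynomial (Fin (N + 1)) ℂ)} {s : ℕ} {G : Fin s → MvPolynomial (Fin (N + 1)) ℂ} {e : Fin s → ℕ}

/-- The complement of `U = locVar P G` in the zero locus `X` of `P` is locally given by one equation: every point of `X` has a neighbourhood
`{A ≠ 0}` in which `X ∖ U` is the zero set of one form `R`. -/
def IsCurveComplement (P : Ideal (MvPolynomial (Fin (N + 1)) ℂ)) (G : Fin s → MvPolynomial (Fin (N + 1)) ℂ) : Prop :=
  ∀ x : PN N, (∀ Q ∈ P, ∀ n, Q.IsHomogeneous n → VanishesAt Q x) →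
    ∃ (A R : MvPolynomial (Fin (N + 1)) ℂ) (a r : ℕ), A.IsHomogeneous a ∧ R.IsHomogeneous r ∧ ¬ VanishesAt A x ∧
      ∀ y : PN N, (∀ Q ∈ P, ∀ n, Q.IsHomogeneous n → VanishesAt Q y) → ¬ VanishesAt A y →
        (y ∈ locVar P G ↔ ¬ VanishesAt R y)

end Pool.Agent.H36.LB
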